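import Mathlib
import Pool.Agent.X72.BKR

/-! Strict containment of the simultaneous BKR product in the intersection of the bracketings. -/

namespace Pool.Agent.Results.MP_3c3b39_pr.StrictContainment

open Pool.Agent.X72.BKR

/-- the sets of the example: `x₀ = 0 ∨ x₁ = 0`, then `x₀ = 1 ∨ x₁ = 0`, then `x₀ = 0 ∨ x₁ = 0`,
then everything -/
def E (i : ℕ) : Set (Fin 2 → Bool) :=
  if i = 0 ∨ i = 2 then {x | x 0 = false ∨ x 1 = false}
  else if i = 1 then {x | x 0 = true ∨ x 1 = false}
  else Set.univ

/-- the set `x₁ = 0` -/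
def D : Set (Fin 2 → Bool) := {x | x 1 = false}

/-- the point `00` -/
def o : Fin 2 → Bool := fun _ => false

theorem c0 {x : Fin 2 → Bool} (h : x 0 = false) : cyl x {0} ⊆ E 0 := by
  intro y hy
  have : y 0 = x 0 := hy 0 rfl
  simp [E, this, h]

theorem c0' {x : Fin 2 → Bool} (h : x 1 = false) : cyl x {1} ⊆ E 0 := by
  intro y hy
  have : y 1 = x 1 := hy 1 rfl
  simp [E, this, h]

theorem c1 {x : Fin 2 → Bool} (h : x 0 = true) : cyl x {0} ⊆ E 1 := by
  intro y hy
  have : y 0 = x 0 := hy 0 rfl
  simp [E, this, h]

theorem c1' {x : Fin 2 → Bool} (h : x 1 = false) : cyl x {1} ⊆ E 1 := by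
  intro y hy
  have : y 1 = x 1 := hy 1 rfl
  simp [E, this, h]

theorem disj : Disjoint ({0} : Set (Fin 2)) {1} := by simp

theorem D_sub : D ⊆ bkr (E 0) (E 1) := by
  intro x hx
  have hx : x 1 = false := hx
  cases h : x 0 with
  | false => exact ⟨{0}, {1}, disj, c0 h, c1' hx⟩
  | true => exact ⟨{1}, {0}, disj.symm, c0' hx, c1 h⟩

theorem E2 : E 2 = E 0 := by simp [E]

theorem o_mem : o ∈ bkr (E 0) D := by
  refine ⟨{0}, {1}, disj, c0 rfl, ?_⟩
  intro y hy
  exact hy 1 rfl

/-- lower bounds for the value of a bracketing of the sets with indices in `[a, a + n)` -/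
def g (a n : ℕ) : Set (Fin 2 → Bool) :=
  if 3 ≤ a then Set.univ
  else if a = 2 then E 2
  else if a = 1 then (if n = 1 then E 1 else D)
  else if n = 1 then E 0 else if n = 2 then D else {o}

theorem g_step (a n m : ℕ) (hm : 1 ≤ m) (hmn : m < n) :
    g a n ⊆ bkr (g a m) (g (a + m) (n - m)) := by
  rcases Nat.lt_or_ge a 3 with ha | ha
  · have : a = 0 ∨ a = 1 ∨ a = 2 := by omega
    rcases this with rfl | rfl | rfl
    · -- a = 0
      rcases Nat.lt_or_ge m 3 with h3 | h3
      · have : m = 1 ∨ m = 2 := by omega
        rcases this with rfl | rfl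
        · rcases Nat.lt_or_ge n 3 with hn | hn
          · have : n = 2 := by omega
            subst this
            simpa [g] using D_sub
          · have h1 : n ≠ 1 := by omega
            have h2 : n ≠ 2 := by omega
            have h4 : n - 1 ≠ 1 := by omega
            simp only [g, h1, h2, h4]
            simpa using o_mem
        · have h1 : n ≠ 1 := by omega
          have h2 : n ≠ 2 := by omega
          simp only [g, h1, h2]
          simp only [E2]
          simpa [bkr_comm] using o_mem
      · have h1 : n ≠ 1 := by omega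
        have h2 : n ≠ 2 := by omega
        have h4 : m ≠ 1 := by omega
        have h5 : m ≠ 2 := by omega
        simp [g, h1, h2, h4, h5, h3, bkr_univ]
    · -- a = 1
      have h1 : n ≠ 1 := by omega
      rcases Nat.lt_or_ge m 2 with h3 | h3
      · have : m = 1 := by omega
        subst this
        simp only [g, h1]
        simp only [E2]
        simpa [bkr_comm] using D_sub
      · have h4 : m ≠ 1 := by omega
        have h5 : 3 ≤ 1 + m := by omega
        simp [g, h1, h4, h5, bkr_univ]
    · have h5 : 3 ≤ 2 + m := by omega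
      simp [g, h5, bkr_univ]
  · have h5 : 3 ≤ a + m := by omega
    simp [g, ha, h5, bkr_univ]

theorem word_ne_nil {α : Type*} (t : BTree α) : t.word ≠ [] := by
  induction t with
  | leaf a => simp [BTree.word]
  | node l r hl hr => simp [BTree.word, hl]

theorem g_sub (r : ℕ) (t : BTree (Fin r)) : ∀ a n : ℕ, t.word.map Fin.val = List.range' a n →
    g a n ⊆ t.value (fun i : Fin r => E i) := by
  induction t with
  | leaf i =>
    intro a n h
    have hn : n = 1 := by
      have := congrArg List.length h
      simpa [BTree.word] using this.symm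
    subst hn
    have hi : (i : ℕ) = a := by simpa [BTree.word] using h
    show g a 1 ⊆ E (i : ℕ)
    rw [hi]
    rcases Nat.lt_or_ge a 3 with ha | ha
    · have : a = 0 ∨ a = 1 ∨ a = 2 := by omega
      rcases this with rfl | rfl | rfl <;> simp [g]
    · have h1 : a ≠ 0 := by omega
      have h2 : a ≠ 2 := by omega
      have h3 : a ≠ 1 := by omega
      simp [g, E, h1, h2, h3]
  | node l r' hl hr =>
    intro a n h
    have hw : (BTree.node l r').word.map Fin.val = l.word.map Fin.val ++ r'.word.map Fin.val := by
      simp [BTree.word]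
    rw [hw, eq_comm, List.range'_eq_append_iff] at h
    obtain ⟨m, hm, h1, h2⟩ := h
    have hl0 : m ≠ 0 := by
      intro h0
      rw [h0] at h1
      exact word_ne_nil l (List.map_eq_nil_iff.mp h1)
    have hr0 : n - m ≠ 0 := by
      intro h0
      rw [h0] at h2
      exact word_ne_nil r' (List.map_eq_nil_iff.mp h2)
    refine (g_step a n m (by omega) (by omega)).trans (bkr_mono (hl a m h1) (hr (a + m) (n - m) ?_))
    simpa using h2

theorem not_simul (r : ℕ) (hr : 3 ≤ r) : ¬ (o ∈ simul (fun i : Fin r => E i)) := by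
  rintro ⟨K, hd, hK⟩
  -- every one of the first three sets needs a nonempty certificate
  have hne : ∀ i : Fin r, (i : ℕ) < 3 → (K i).Nonempty := by
    intro i hi
    by_contra hcon
    rw [Set.not_nonempty_iff_eq_empty] at hcon
    have h := hK i
    rw [hcon] at h
    have hall : ∀ y : Fin 2 → Bool, y ∈ E i := fun y => h fun _ hj => absurd hj (by simp)
    have : (i : ℕ) = 0 ∨ (i : ℕ) = 1 ∨ (i : ℕ) = 2 := by omega
    rcases this with e | e | e <;> rw [e] at hall
    · have := hall (fun _ => true); simp [E] at this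
    · have := hall ![false, true]; simp [E] at this
    · have := hall (fun _ => true); simp [E] at this
  obtain ⟨k0, h0⟩ := hne ⟨0, by omega⟩ (by simp)
  obtain ⟨k1, h1⟩ := hne ⟨1, by omega⟩ (by simp)
  obtain ⟨k2, h2⟩ := hne ⟨2, by omega⟩ (by simp)
  have e01 : k0 ≠ k1 := by
    rintro rfl
    exact Set.disjoint_left.mp (hd _ _ (by simp)) h0 h1
  have e02 : k0 ≠ k2 := by
    rintro rfl
    exact Set.disjoint_left.mp (hd _ _ (by simp)) h0 h2
  have e12 : k1 ≠ k2 := by
    rintro rfl
    exact Set.disjoint_left.mp (hd _ _ (by simp)) h1 h2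
  omega

/-- For every `r ≥ 3` there are a nonempty set `S`, `d ≥ 1` and `A₁, …, A_r ⊆ S^d` whose
simultaneous product is strictly contained in the intersection of all the sets obtained by fully
parenthesising `A₁ A₂ ⋯ A_r`. -/
theorem result (r : ℕ) (hr : 3 ≤ r) : ∃ (S : Type) (_ : Nonempty S) (d : ℕ) (_ : 1 ≤ d)
    (A : Fin r → Set (Fin d → S)),
    simul A ⊂ {x | ∀ t : BTree (Fin r), t.word = List.finRange r → x ∈ t.value A} := by
  refine ⟨Bool, ⟨true⟩, 2, by norm_num, fun i => E i, ?_⟩
  rw [Set.ssubset_iff_subset_ne]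
  constructor
  · rintro x ⟨K, hd, hK⟩ t ht
    exact cyl_sub_value K hd hK t (by rw [ht]; exact List.nodup_finRange r) (self_mem_cyl x _)
  · intro h
    apply not_simul r hr
    rw [h]
    intro t ht
    have h1 : t.word.map Fin.val = List.range' 0 r := by
      rw [ht, ← List.range_eq_range']
      simp
    have h2 := g_sub r t 0 r h1
    apply h2
    have e1 : r ≠ 1 := by omega
    have e2 : r ≠ 2 := by omega
    simp [g, e1, e2]

end Pool.Agent.Results.MP_3c3b39_pr.StrictContainment
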